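import Pool.Agent.H434Z.PPDefs
import Pool.Agent.H434Z.PPMain

set_option autoImplicit false

namespace Pool.Agent.Results.MP_f310dc_lc.PermChar

open Pool.Agent.H434Z.PP (Sig Str CondM CondS Inter permStr P1)

/-- A finite structure satisfies (M) and (S) if and only if it is pp-interconstructible with the
structure of a finite group acting on a finite set, or with `P1`. -/
theorem result (σ : Sig) (A : Str σ) : (CondM A ∧ CondS A) ↔
    ((∃ (G : Type) (_ : Group G) (_ : Finite G) (X : Type) (_ : Finite X) (_ : MulAction G X),
      Inter A (permStr G X)) ∨ Inter A P1) :=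
  Pool.Agent.H434Z.PP.main A

end Pool.Agent.Results.MP_f310dc_lc.PermChar
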